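import Mathlib

/-!
# MP_24e294_lc: indispensable irreducible transformations of arbitrarily high order

Words over `{a, b, c}`, Salomaa's rules `ac ↔ ca`, `abxba ↔ baxab`, `bcxcb ↔ cbxbc`.
-/

namespace Pool.Agent.Results.MP_24e294_lc.IndispensableHighOrder

/-- The ternary alphabet. -/
inductive Letter
  | a | b | c
  deriving DecidableEq

open Letter

/-- Words over `{a, b, c}`. -/
abbrev Word := List Letter

/-- `occ u w` is the number of occurrences of `u` as a scattered subword of `w`
(`List.sublists w` lists the scattered subwords of `w` with multiplicity). -/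
def occ (u w : Word) : ℕ := w.sublists.count u

/-- The set `R` of pairs. -/
inductive Rule : Word → Word → Prop
  | ac : Rule [a, c] [c, a]
  | ab (x : Word) : Rule ([a, b] ++ x ++ [b, a]) ([b, a] ++ x ++ [a, b])
  | bc (x : Word) : Rule ([b, c] ++ x ++ [c, b]) ([c, b] ++ x ++ [b, c])

/-- A direct step `w →_R w'`. -/
def Step (w w' : Word) : Prop :=
  ∃ x y y' z : Word, (Rule y y' ∨ Rule y' y) ∧ w = x ++ y ++ z ∧ w' = x ++ y' ++ z

/-- `Path n w w'`: `w'` is reached from `w` by exactly `n` direct steps. -/
inductive Path : ℕ → Word → Word → Prop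
  | nil (w : Word) : Path 0 w w
  | snoc {n : ℕ} {w w' w'' : Word} : Path n w w' → Step w' w'' → Path (n + 1) w w''

/-- `w ⇒_R w'`. -/
def Reach (w w' : Word) : Prop := ∃ n, Path n w w'

/-- The distance: least number of direct steps (used only when `w ⇒_R w'`). -/
noncomputable def dist (w w' : Word) : ℕ := sInf {n | Path n w w'}

/-- `w ⇒_𝔓 w'`. -/
def PReach (w w' : Word) : Prop := Reach w w' ∧ occ [a, b, c] w = occ [a, b, c] w'

/-- Reducibility of a transformation `w ⇒_𝔓 w'`. -/
def Reducible (w w' : Word) : Prop :=
  ∃ w'' : Word, w'' ≠ w ∧ w'' ≠ w' ∧ PReach w w'' ∧ PReach w'' w' ∧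
    dist w w'' + dist w'' w' = dist w w'

/-- `w ⇒_𝔓 w'` is an irreducible transformation (of order `dist w w'`). -/
def Irred (w w' : Word) : Prop := w ≠ w' ∧ PReach w w' ∧ ¬ Reducible w w'

/-- `w ⇒_𝔓 w'` is expressible by irreducible transformations of order `< n`. -/
def Expressible (n : ℕ) (w w' : Word) : Prop :=
  Relation.ReflTransGen (fun u v => Irred u v ∧ dist u v < n) w w'

/-! ### Basic facts on paths -/

theorem Step.symm {w w' : Word} (h : Step w w') : Step w' w := by
  obtain ⟨x, y, y', z, hr, h1, h2⟩ := h
  exact ⟨x, y', y, z, hr.symm, h2, h1⟩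

theorem Path.trans {m n : ℕ} {w w' w'' : Word} (h : Path m w w') (h' : Path n w' w'') :
    Path (m + n) w w'' := by
  induction h' with
  | nil => simpa using h
  | snoc _ hs ih => exact (ih h).snoc hs

theorem Path.symm {n : ℕ} {w w' : Word} (h : Path n w w') : Path n w' w := by
  induction h with
  | nil w => exact Path.nil w
  | @snoc n w w' w'' _ hs ih =>
    have h1 : Path 1 w'' w' := (Path.nil w'').snoc hs.symm
    have := h1.trans ih
    rwa [Nat.add_comm] at this

theorem Reach.refl (w : Word) : Reach w w := ⟨0, Path.nil w⟩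

theorem Reach.trans {w w' w'' : Word} (h : Reach w w') (h' : Reach w' w'') : Reach w w'' := by
  obtain ⟨m, hm⟩ := h
  obtain ⟨n, hn⟩ := h'
  exact ⟨m + n, hm.trans hn⟩

theorem Reach.symm {w w' : Word} (h : Reach w w') : Reach w' w := by
  obtain ⟨m, hm⟩ := h
  exact ⟨m, hm.symm⟩

theorem Step.reach {w w' : Word} (h : Step w w') : Reach w w' := ⟨1, (Path.nil w).snoc h⟩

theorem Step.ctx {w w' : Word} (h : Step w w') (p q : Word) : Step (p ++ w ++ q) (p ++ w' ++ q) := by
  obtain ⟨x, y, y', z, hr, h1, h2⟩ := h
  refine ⟨p ++ x, y, y', z ++ q, hr, ?_, ?_⟩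
  · rw [h1]; simp
  · rw [h2]; simp

theorem Reach.ctx {w w' : Word} (h : Reach w w') (p q : Word) :
    Reach (p ++ w ++ q) (p ++ w' ++ q) := by
  obtain ⟨n, hn⟩ := h
  induction hn with
  | nil w => exact Reach.refl _
  | snoc _ hs ih => exact ih.trans (hs.ctx p q).reach

theorem dist_le {n : ℕ} {w w' : Word} (h : Path n w w') : dist w w' ≤ n := Nat.sInf_le h

theorem path_dist {w w' : Word} (h : Reach w w') : Path (dist w w') w w' :=
  Nat.sInf_mem (s := {n | Path n w w'}) h

theorem eq_of_path_zero {w w' : Word} (h : Path 0 w w') : w = w' := by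
  cases h; rfl

theorem dist_pos {w w' : Word} (h : Reach w w') (hne : w ≠ w') : 0 < dist w w' := by
  rcases Nat.eq_zero_or_pos (dist w w') with h0 | h0
  · have := path_dist h
    rw [h0] at this
    exact absurd (eq_of_path_zero this) hne
  · exact h0

/-! ### The two vectors of a word -/

/-- For every `b` of the word, `k +` the number of `a`s before it. -/
def aBef : ℕ → Word → List ℕ
  | _, [] => []
  | k, a :: w => aBef (k + 1) w
  | k, b :: w => k :: aBef k w
  | k, c :: w => aBef k w

/-- For every `b` of the word, the number of `c`s after it. -/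
def cAft : Word → List ℕ
  | [] => []
  | a :: w => cAft w
  | b :: w => w.count c :: cAft w
  | c :: w => cAft w

theorem aBef_add (k j : ℕ) (w : Word) : aBef (k + j) w = (aBef k w).map (· + j) := by
  induction w generalizing k with
  | nil => rfl
  | cons x w ih =>
    cases x
    · simp only [aBef]
      rw [← ih (k + 1)]
      congr 1
      omega
    · simp only [aBef, List.map_cons, ih]
    · simp only [aBef, ih]

theorem aBef_append (k : ℕ) (x y : Word) :
    aBef k (x ++ y) = aBef k x ++ aBef (k + x.count a) y := by
  induction x generalizing k with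
  | nil => simp [aBef]
  | cons l x ih =>
    cases l
    · simp only [List.cons_append, aBef, ih, List.count_cons_self]
      congr 2
      omega
    · simp [aBef, ih]
    · simp [aBef, ih]

theorem cAft_append (x y : Word) :
    cAft (x ++ y) = (cAft x).map (· + y.count c) ++ cAft y := by
  induction x with
  | nil => simp [cAft]
  | cons l x ih =>
    cases l
    · simp [cAft, ih]
    · simp [cAft, ih]
    · simp [cAft, ih]

theorem aBef_le (k : ℕ) (w : Word) : ∀ m ∈ aBef k w, m ≤ k + w.count a := by
  induction w generalizing k with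
  | nil => simp [aBef]
  | cons l w ih =>
    cases l
    · intro m hm
      have := ih (k + 1) m (by simpa [aBef] using hm)
      simp only [List.count_cons_self]
      omega
    · intro m hm
      simp only [aBef, List.mem_cons] at hm
      rcases hm with rfl | hm
      · omega
      · have := ih k m hm
        simpa using this
    · intro m hm
      have := ih k m (by simpa [aBef] using hm)
      simpa using this

theorem cAft_le (w : Word) : ∀ m ∈ cAft w, m ≤ w.count c := by
  induction w with
  | nil => simp [cAft]
  | cons l w ih =>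
    cases l
    · intro m hm
      have := ih m (by simpa [cAft] using hm)
      simpa using this
    · intro m hm
      simp only [cAft, List.mem_cons] at hm
      rcases hm with rfl | hm
      · simp
      · have := ih m hm
        simpa using this
    · intro m hm
      have := ih m (by simpa [cAft] using hm)
      simp only [List.count_cons_self]
      omega

theorem cAft_pairwise (w : Word) : (cAft w).Pairwise (· ≥ ·) := by
  induction w with
  | nil => simp [cAft]
  | cons l w ih =>
    cases l
    · simpa [cAft] using ih
    · simp only [cAft, List.pairwise_cons]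
      exact ⟨fun m hm => cAft_le w m hm, ih⟩
    · simpa [cAft] using ih

/-! ### Counting subwords -/

theorem occ_cons (u w : Word) (l : Letter) :
    occ u (l :: w) = occ u w + ((w.sublists.map (List.cons l)).count u) := by
  unfold occ
  rw [(List.sublists_perm_sublists' (l :: w)).count_eq, List.sublists'_cons, List.count_append,
    ← (List.sublists_perm_sublists' w).count_eq,
    ((List.sublists_perm_sublists' w).map (List.cons l)).count_eq]

theorem occ_cons_same (u w : Word) (l : Letter) :
    occ (l :: u) (l :: w) = occ (l :: u) w + occ u w := by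
  rw [occ_cons]
  congr 1
  unfold occ
  rw [List.count_map_of_injective]
  exact List.cons_injective

theorem occ_cons_ne (u w : Word) {l l' : Letter} (h : l ≠ l') :
    occ (l :: u) (l' :: w) = occ (l :: u) w := by
  rw [occ_cons]
  have : (w.sublists.map (List.cons l')).count (l :: u) = 0 := by
    rw [List.count_eq_zero]
    intro hm
    rw [List.mem_map] at hm
    obtain ⟨v, _, hv⟩ := hm
    exact h (List.cons.inj hv).1.symm
  rw [this, Nat.add_zero]

theorem occ_nil (w : Word) : occ [] w = 1 := by
  induction w with
  | nil => simp [occ]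
  | cons l w ih =>
    rw [occ_cons, ih]
    have : (w.sublists.map (List.cons l)).count [] = 0 := by
      rw [List.count_eq_zero]
      intro hm
      rw [List.mem_map] at hm
      obtain ⟨v, _, hv⟩ := hm
      exact List.cons_ne_nil _ _ hv
    rw [this]

theorem occ_c (w : Word) : occ [c] w = w.count c := by
  induction w with
  | nil => simp [occ]
  | cons l w ih =>
    cases l
    · rw [occ_cons_ne _ _ (by decide), ih]; simp
    · rw [occ_cons_ne _ _ (by decide), ih]; simp
    · rw [occ_cons_same, ih, occ_nil]; simp

/-- `Σ_k A_k C_k`. -/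
def dotp (l l' : List ℕ) : ℕ := (List.zipWith (· * ·) l l').sum

theorem dotp_eq (k : ℕ) (w : Word) :
    dotp (aBef k w) (cAft w) = occ [a, b, c] w + k * occ [b, c] w := by
  induction w generalizing k with
  | nil => simp [dotp, aBef, occ]
  | cons l w ih =>
    cases l
    · simp only [aBef, cAft]
      rw [ih, occ_cons_same, occ_cons_ne [c] w (l := b) (l' := a) (by decide)]
      ring
    · have hd : dotp (aBef k (b :: w)) (cAft (b :: w)) =
          k * w.count c + dotp (aBef k w) (cAft w) := by
        simp [dotp, aBef, cAft]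
      rw [hd, ih, occ_cons_same, occ_cons_ne [b, c] w (l := a) (l' := b) (by decide), occ_c]
      ring
    · simp only [aBef, cAft]
      rw [ih, occ_cons_ne [b, c] w (l := a) (l' := c) (by decide),
        occ_cons_ne [c] w (l := b) (l' := c) (by decide)]

theorem occ_abc (w : Word) : occ [a, b, c] w = dotp (aBef 0 w) (cAft w) := by
  rw [dotp_eq]; simp

/-! ### How a path changes the vectors -/

/-- Two lists of numbers are `n`-close: same length and sum, entries differ by at most `n`. -/
def Close (n : ℕ) (l l' : List ℕ) : Prop :=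
  List.Forall₂ (fun m m' => m ≤ m' + n ∧ m' ≤ m + n) l l' ∧ l.sum = l'.sum

theorem Close.refl (n : ℕ) (l : List ℕ) : Close n l l := by
  refine ⟨?_, rfl⟩
  induction l with
  | nil => exact List.Forall₂.nil
  | cons x l ih => exact List.Forall₂.cons ⟨by omega, by omega⟩ ih

theorem Close.symm {n : ℕ} {l l' : List ℕ} (h : Close n l l') : Close n l' l := by
  refine ⟨?_, h.2.symm⟩
  have := h.1.flip
  exact this.imp (fun _ _ h => ⟨h.2, h.1⟩)

theorem Close.trans {m n : ℕ} {l l' l'' : List ℕ} (h : Close m l l') (h' : Close n l' l'') :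
    Close (m + n) l l'' := by
  refine ⟨?_, h.2.trans h'.2⟩
  obtain ⟨h, -⟩ := h
  obtain ⟨h', -⟩ := h'
  induction h generalizing l'' with
  | nil => cases h'; exact List.Forall₂.nil
  | cons hx _ ih =>
    cases h' with
    | cons hy h' =>
      refine List.Forall₂.cons ⟨?_, ?_⟩ (ih h')
      · have := hx.1; have := hy.1; omega
      · have := hx.2; have := hy.2; omega

theorem close_swap (L1 L2 L3 : List ℕ) (p q : ℕ) :
    Close 1 (L1 ++ (p + 1) :: (L2 ++ q :: L3)) (L1 ++ p :: (L2 ++ (q + 1) :: L3)) := by
  refine ⟨?_, ?_⟩
  · refine List.rel_append (Close.refl 1 L1).1 (List.Forall₂.cons ⟨by omega, by omega⟩ ?_)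
    exact List.rel_append (Close.refl 1 L2).1
      (List.Forall₂.cons ⟨by omega, by omega⟩ (Close.refl 1 L3).1)
  · simp only [List.sum_append, List.sum_cons]
    omega

theorem rule_close {y y' : Word} (h : Rule y y') (x z : Word) :
    Close 1 (aBef 0 (x ++ y ++ z)) (aBef 0 (x ++ y' ++ z)) ∧
    Close 1 (cAft (x ++ y ++ z)) (cAft (x ++ y' ++ z)) ∧
    (x ++ y ++ z).count a = (x ++ y' ++ z).count a ∧
    (x ++ y ++ z).count c = (x ++ y' ++ z).count c := by
  cases h with
  | ac =>
    have e1 : aBef 0 (x ++ [a, c] ++ z) = aBef 0 (x ++ [c, a] ++ z) := by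
      simp [aBef_append, aBef]
    have e2 : cAft (x ++ [a, c] ++ z) = cAft (x ++ [c, a] ++ z) := by
      simp [cAft_append, cAft]
    rw [e1, e2]
    refine ⟨Close.refl 1 _, Close.refl 1 _, ?_, ?_⟩
    · simp [List.count_append]
    · simp [List.count_append]
  | ab v =>
    refine ⟨?_, ?_, ?_, ?_⟩
    · have e1 : aBef 0 (x ++ ([a, b] ++ v ++ [b, a]) ++ z) =
          aBef 0 x ++ (x.count a + 1) :: (aBef (x.count a + 1) v ++
            (x.count a + 1 + v.count a) :: aBef (x.count a + 1 + v.count a + 1) z) := by
        simp [aBef_append, aBef]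
      have e2 : aBef 0 (x ++ ([b, a] ++ v ++ [a, b]) ++ z) =
          aBef 0 x ++ (x.count a) :: (aBef (x.count a + 1) v ++
            (x.count a + 1 + v.count a + 1) :: aBef (x.count a + 1 + v.count a + 1) z) := by
        simp [aBef_append, aBef]
      rw [e1, e2]
      exact close_swap _ _ _ _ _
    · have e1 : cAft (x ++ ([a, b] ++ v ++ [b, a]) ++ z) =
          cAft (x ++ ([b, a] ++ v ++ [a, b]) ++ z) := by
        simp [cAft_append, cAft, List.count_append]
      rw [e1]
      exact Close.refl 1 _
    · simp [List.count_append]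
    · simp [List.count_append]
  | bc v =>
    refine ⟨?_, ?_, ?_, ?_⟩
    · have e1 : aBef 0 (x ++ ([b, c] ++ v ++ [c, b]) ++ z) =
          aBef 0 (x ++ ([c, b] ++ v ++ [b, c]) ++ z) := by
        simp [aBef_append, aBef]
      rw [e1]
      exact Close.refl 1 _
    · have e1 : cAft (x ++ ([b, c] ++ v ++ [c, b]) ++ z) =
          (cAft x).map (· + (v.count c + z.count c + 2)) ++
            ((v.count c + z.count c + 1) + 1) :: ((cAft v).map (· + (z.count c + 1)) ++
            (z.count c) :: cAft z) := by
        simp [cAft_append, cAft, List.count_append]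
        have h1 : v.count c + (z.count c + 1) + 1 = v.count c + z.count c + 2 := by omega
        have h2 : v.count c + z.count c + 1 + 1 = v.count c + z.count c + 2 := by omega
        rw [h1, h2]
      have e2 : cAft (x ++ ([c, b] ++ v ++ [b, c]) ++ z) =
          (cAft x).map (· + (v.count c + z.count c + 2)) ++
            (v.count c + z.count c + 1) :: ((cAft v).map (· + (z.count c + 1)) ++
            (z.count c + 1) :: cAft z) := by
        simp [cAft_append, cAft, List.count_append]
        have h1 : v.count c + (z.count c + 1) + 1 = v.count c + z.count c + 2 := by omega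
        have h2 : v.count c + (z.count c + 1) = v.count c + z.count c + 1 := by omega
        rw [h1, h2]
      rw [e1, e2]
      exact close_swap _ _ _ _ _
    · simp [List.count_append]
    · simp [List.count_append]

/-- All invariants along a path of length `n`. -/
def Near (n : ℕ) (w w' : Word) : Prop :=
  Close n (aBef 0 w) (aBef 0 w') ∧ Close n (cAft w) (cAft w') ∧
    w.count a = w'.count a ∧ w.count c = w'.count c

theorem step_near {w w' : Word} (h : Step w w') : Near 1 w w' := by
  obtain ⟨x, y, y', z, hr, rfl, rfl⟩ := h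
  rcases hr with hr | hr
  · exact rule_close hr x z
  · obtain ⟨h1, h2, h3, h4⟩ := rule_close hr x z
    exact ⟨h1.symm, h2.symm, h3.symm, h4.symm⟩

theorem path_near {n : ℕ} {w w' : Word} (h : Path n w w') : Near n w w' := by
  induction h with
  | nil w => exact ⟨Close.refl 0 _, Close.refl 0 _, rfl, rfl⟩
  | snoc _ hs ih =>
    obtain ⟨h1, h2, h3, h4⟩ := step_near hs
    obtain ⟨i1, i2, i3, i4⟩ := ih
    exact ⟨i1.trans h1, i2.trans h2, i3.trans h3, i4.trans h4⟩

/-! ### The family of words -/

/-- `a^K b c b a^(K+2) c^K b`. -/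
def start (K : ℕ) : Word :=
  List.replicate K a ++ [b] ++ [c] ++ [b] ++ List.replicate (K + 2) a ++ List.replicate K c ++ [b]

theorem aBef_replicate_a (k n : ℕ) : aBef k (List.replicate n a) = [] := by
  induction n generalizing k with
  | zero => rfl
  | succ n ih => simp [List.replicate_succ, aBef, ih]

theorem aBef_replicate_c (k n : ℕ) : aBef k (List.replicate n c) = [] := by
  induction n generalizing k with
  | zero => rfl
  | succ n ih => simp [List.replicate_succ, aBef, ih]

theorem cAft_replicate_a (n : ℕ) : cAft (List.replicate n a) = [] := by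
  induction n with
  | zero => rfl
  | succ n ih => simp [List.replicate_succ, cAft, ih]

theorem cAft_replicate_c (n : ℕ) : cAft (List.replicate n c) = [] := by
  induction n with
  | zero => rfl
  | succ n ih => simp [List.replicate_succ, cAft, ih]

theorem aBef_start (K : ℕ) : aBef 0 (start K) = [K, K, 2 * K + 2] := by
  simp [start, aBef_append, aBef, aBef_replicate_a, aBef_replicate_c, List.count_replicate]
  omega

theorem cAft_start (K : ℕ) : cAft (start K) = [K + 1, K, 0] := by
  simp [start, cAft_append, cAft, cAft_replicate_a, cAft_replicate_c, List.count_replicate]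

theorem count_a_start (K : ℕ) : (start K).count a = 2 * K + 2 := by
  simp [start, List.count_append, List.count_replicate]
  omega

theorem count_c_start (K : ℕ) : (start K).count c = K + 1 := by
  simp [start, List.count_append, List.count_replicate]
  try omega

/-- The arithmetic heart: a word that is `n`-near to one with the vectors of `start K`, has the
same value of `Σ A_k C_k` but different vectors, satisfies `K ≤ 3 n ^ 2 + n`. -/
theorem arith {K n : ℕ} {u v : Word} (hA : aBef 0 u = [K, K, 2 * K + 2])
    (hC : cAft u = [K + 1, K, 0]) (ha : u.count a = 2 * K + 2) (hc : u.count c = K + 1)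
    (hnear : Near n u v) (hocc : occ [a, b, c] u = occ [a, b, c] v)
    (hne : ¬ (aBef 0 v = [K, K, 2 * K + 2] ∧ cAft v = [K + 1, K, 0])) :
    K ≤ 3 * n ^ 2 + n := by
  obtain ⟨⟨hA1, hA2⟩, ⟨hC1, hC2⟩, hac, hcc⟩ := hnear
  rw [hA] at hA1 hA2
  rw [hC] at hC1 hC2
  rw [occ_abc, occ_abc, hA, hC] at hocc
  have hAm := aBef_le 0 v
  have hCm := cAft_le v
  have hCp := cAft_pairwise v
  generalize hAv : aBef 0 v = Av at *
  generalize hCv : cAft v = Cv at *
  match Av, hA1 with
  | [x1, x2, x3], hA1 =>
    match Cv, hC1 with
    | [z1, z2, z3], hC1 =>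
      simp only [List.forall₂_cons, List.Forall₂.nil, and_true] at hA1 hC1
      simp only [List.sum_cons, List.sum_nil, add_zero] at hA2 hC2
      simp only [dotp, List.zipWith_cons_cons, List.zipWith_nil_left, List.sum_cons,
        List.sum_nil, add_zero, mul_zero] at hocc
      have hx3 : x3 ≤ 2 * K + 2 := by
        have := hAm x3 (by simp)
        omega
      have hz1 : z1 ≤ K + 1 := by
        have := hCm z1 (by simp)
        omega
      have hz12 : z2 ≤ z1 := by
        simp only [List.pairwise_cons] at hCp
        exact hCp.1 z2 (by simp)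
      obtain ⟨⟨hx1a, hx1b⟩, ⟨hx2a, hx2b⟩, ⟨hx3a, hx3b⟩⟩ := hA1
      obtain ⟨⟨hz1a, hz1b⟩, ⟨hz2a, hz2b⟩, ⟨hz3a, hz3b⟩⟩ := hC1
      -- integers
      obtain ⟨u', hu'⟩ : ∃ u' : ℕ, x3 + u' = 2 * K + 2 := ⟨2 * K + 2 - x3, by omega⟩
      obtain ⟨s, hs⟩ : ∃ s : ℕ, z1 + s = K + 1 := ⟨K + 1 - z1, by omega⟩
      have key : (K : ℤ) * (z3 + u') + 2 * z3 + u' * (s - 2 * z3) =
          ((K : ℤ) - x1) * (1 + z3 - 2 * s) := by
        have h1 : (x3 : ℤ) = 2 * K + 2 - u' := by
          have : (x3 : ℤ) + u' = 2 * K + 2 := by exact_mod_cast hu'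
          linarith
        have h2 : (z1 : ℤ) = K + 1 - s := by
          have : (z1 : ℤ) + s = K + 1 := by exact_mod_cast hs
          linarith
        have h3 : (x2 : ℤ) = 2 * K + u' - x1 := by
          have : (K : ℤ) + (K + (2 * K + 2)) = x1 + (x2 + x3) := by exact_mod_cast hA2
          linarith
        have h4 : (z2 : ℤ) = K + s - z3 := by
          have : (K : ℤ) + 1 + (K + 0) = z1 + (z2 + z3) := by exact_mod_cast hC2
          linarith
        have h5 : (K : ℤ) * (K + 1) + (K * K) = x1 * z1 + (x2 * z2 + x3 * z3) := by
          exact_mod_cast hocc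
        rw [h1, h2, h3, h4] at h5
        linarith
      have hy : (0 : ℤ) ≤ 1 + z3 - 2 * s := by
        have h2 : (z1 : ℤ) = K + 1 - s := by
          have : (z1 : ℤ) + s = K + 1 := by exact_mod_cast hs
          linarith
        have h4 : (z2 : ℤ) = K + s - z3 := by
          have : (K : ℤ) + 1 + (K + 0) = z1 + (z2 + z3) := by exact_mod_cast hC2
          linarith
        have h12 : (z2 : ℤ) ≤ z1 := by exact_mod_cast hz12
        linarith
      by_cases h0 : z3 + u' = 0
      · exfalso
        have hz30 : z3 = 0 := by omega
        have hu0 : u' = 0 := by omega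
        subst hz30 hu0
        have hs0 : s = 0 := by
          have : (0 : ℤ) ≤ 1 - 2 * s := by simpa using hy
          omega
        subst hs0
        have hx1 : (K : ℤ) - x1 = 0 := by
          have := key
          simp at this
          linarith
        apply hne
        refine ⟨?_, ?_⟩
        · congr 1
          · omega
          · congr 1
            · omega
            · congr 1
        · congr 1
          congr 1
          omega
      · have h1 : 1 ≤ z3 + u' := by omega
        have hk1 : (K : ℤ) ≤ K * (z3 + u') := by
          have : (1 : ℤ) ≤ z3 + u' := by exact_mod_cast h1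
          nlinarith [Int.natCast_nonneg K]
        have hu : (u' : ℤ) ≤ n := by
          have : u' ≤ n := by omega
          exact_mod_cast this
        have hz : (z3 : ℤ) ≤ n := by
          have : z3 ≤ n := by omega
          exact_mod_cast this
        have hv : (K : ℤ) - x1 ≤ n := by
          have : (K : ℤ) ≤ x1 + n := by exact_mod_cast hx1a
          linarith
        have hu0 : (0 : ℤ) ≤ u' := Int.natCast_nonneg _
        have hz0 : (0 : ℤ) ≤ z3 := Int.natCast_nonneg _
        have hs0 : (0 : ℤ) ≤ s := Int.natCast_nonneg _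
        have hn0 : (0 : ℤ) ≤ n := Int.natCast_nonneg _
        have e1 : ((K : ℤ) - x1) * (1 + z3 - 2 * s) ≤ n * (1 + z3 - 2 * s) :=
          mul_le_mul_of_nonneg_right hv hy
        have e2 : (n : ℤ) * (1 + z3 - 2 * s) ≤ n * (1 + n) :=
          mul_le_mul_of_nonneg_left (by linarith) hn0
        have e3 : (u' : ℤ) * z3 ≤ n * n := mul_le_mul hu hz hz0 hn0
        have e4 : (0 : ℤ) ≤ u' * s := mul_nonneg hu0 hs0
        have e5 : (u' : ℤ) * (s - 2 * z3) = u' * s - 2 * (u' * z3) := by ring
        have : (K : ℤ) ≤ 3 * n ^ 2 + n := by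
          rw [e5] at key
          have e6 : (n : ℤ) * (1 + n) = n + n * n := by ring
          have e7 : (3 : ℤ) * n ^ 2 + n = n + 3 * (n * n) := by ring
          rw [e7]
          linarith
        exact_mod_cast this

/-! ### A second word of the class -/

theorem swap_ac (p q : Word) : Reach (p ++ [a, c] ++ q) (p ++ [c, a] ++ q) :=
  (Step.reach ⟨p, [a, c], [c, a], q, Or.inl Rule.ac, rfl, rfl⟩)

theorem rot_c (K : ℕ) :
    Reach ([a] ++ List.replicate K c) (List.replicate K c ++ [a]) := by
  induction K with
  | zero => exact Reach.refl _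
  | succ K ih =>
    have h1 : Reach ([a] ++ List.replicate (K + 1) c) ([c, a] ++ List.replicate K c) := by
      have := swap_ac [] (List.replicate K c)
      simpa [List.replicate_succ] using this
    have h2 : Reach ([c, a] ++ List.replicate K c) (List.replicate (K + 1) c ++ [a]) := by
      have := ih.ctx [c] []
      simpa [List.replicate_succ] using this
    exact h1.trans h2

/-- `a^i b a^(2j) c b a^(l) c^K b`. -/
def mid (i j l K : ℕ) : Word :=
  List.replicate i a ++ [b] ++ List.replicate (2 * j) a ++ [c] ++ [b] ++ List.replicate l a ++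
    List.replicate K c ++ [b]

theorem contract (i j l K : ℕ) : Reach (mid (i + 1) j (l + 1) K) (mid i (j + 1) l K) := by
  have h1 : Reach (mid (i + 1) j (l + 1) K)
      (List.replicate i a ++ ([b, a] ++ (List.replicate (2 * j) a ++ [c]) ++ [a, b]) ++
        (List.replicate l a ++ List.replicate K c ++ [b])) := by
    apply Step.reach
    refine ⟨List.replicate i a, [a, b] ++ (List.replicate (2 * j) a ++ [c]) ++ [b, a],
      [b, a] ++ (List.replicate (2 * j) a ++ [c]) ++ [a, b],
      List.replicate l a ++ List.replicate K c ++ [b], Or.inl (Rule.ab _), ?_, rfl⟩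
    rw [mid, List.replicate_succ' (n := i), List.replicate_succ (n := l)]
    simp
  have h2 : Reach (List.replicate i a ++ ([b, a] ++ (List.replicate (2 * j) a ++ [c]) ++ [a, b]) ++
        (List.replicate l a ++ List.replicate K c ++ [b])) (mid i (j + 1) l K) := by
    have := (swap_ac (List.replicate i a ++ [b, a] ++ List.replicate (2 * j) a)
      ([b] ++ List.replicate l a ++ List.replicate K c ++ [b])).symm
    have e : mid i (j + 1) l K = (List.replicate i a ++ [b, a] ++ List.replicate (2 * j) a) ++
        [a, c] ++ ([b] ++ List.replicate l a ++ List.replicate K c ++ [b]) := by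
      have : 2 * (j + 1) = (2 * j + 1) + 1 := by ring
      simp only [mid, this]
      rw [List.replicate_succ' (n := 2 * j + 1), List.replicate_succ (n := 2 * j)]
      simp
    rw [e]
    simpa using this
  exact h1.trans h2

theorem reach_mid (i j l K : ℕ) : Reach (mid i j (l + i) K) (mid 0 (j + i) l K) := by
  induction i generalizing j with
  | zero => exact Reach.refl _
  | succ i ih =>
    have h1 := contract i j (l + i) K
    have h2 := ih (j + 1)
    have e : j + 1 + i = j + (i + 1) := by ring
    rw [e] at h2
    exact h1.trans h2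

/-- `b a^(2K+1) c b c^K b a`. -/
def other (K : ℕ) : Word :=
  [b] ++ List.replicate (2 * K + 1) a ++ [c] ++ [b] ++ List.replicate K c ++ [b, a]

theorem reach_other (K : ℕ) : Reach (start K) (other K) := by
  have h1 : Reach (start K) (mid 0 K 2 K) := by
    have := reach_mid K 0 2 K
    have e : start K = mid K 0 (2 + K) K := by
      simp [start, mid, Nat.add_comm]
    rw [e]
    simpa using this
  have h2 : Reach (mid 0 K 2 K)
      ([b] ++ List.replicate (2 * K) a ++ [c] ++ [b, a] ++ List.replicate K c ++ [a, b]) := by
    have := (rot_c K).ctx ([b] ++ List.replicate (2 * K) a ++ [c] ++ [b, a]) [b]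
    simpa [mid] using this
  have h3 : Reach
      ([b] ++ List.replicate (2 * K) a ++ [c] ++ [b, a] ++ List.replicate K c ++ [a, b])
      ([b] ++ List.replicate (2 * K) a ++ [c] ++ [a, b] ++ List.replicate K c ++ [b, a]) := by
    apply Step.reach
    exact ⟨[b] ++ List.replicate (2 * K) a ++ [c], [b, a] ++ List.replicate K c ++ [a, b],
      [a, b] ++ List.replicate K c ++ [b, a], [], Or.inr (Rule.ab _), by simp, by simp⟩
  have h4 : Reach
      ([b] ++ List.replicate (2 * K) a ++ [c] ++ [a, b] ++ List.replicate K c ++ [b, a])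
      (other K) := by
    have := (swap_ac ([b] ++ List.replicate (2 * K) a) ([b] ++ List.replicate K c ++ [b, a])).symm
    have e : other K = ([b] ++ List.replicate (2 * K) a) ++ [a, c] ++
        ([b] ++ List.replicate K c ++ [b, a]) := by
      simp [other, List.replicate_succ']
    rw [e]
    simpa using this
  exact ((h1.trans h2).trans h3).trans h4

theorem aBef_other (K : ℕ) : aBef 0 (other K) = [0, 2 * K + 1, 2 * K + 1] := by
  simp [other, aBef_append, aBef, aBef_replicate_a, aBef_replicate_c, List.count_replicate]

theorem cAft_other (K : ℕ) : cAft (other K) = [K + 1, K, 0] := by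
  simp [other, cAft_append, cAft, cAft_replicate_a, cAft_replicate_c, List.count_replicate]

theorem occ_start_other (K : ℕ) : occ [a, b, c] (start K) = occ [a, b, c] (other K) := by
  rw [occ_abc, occ_abc, aBef_start, cAft_start, aBef_other, cAft_other]
  simp [dotp]
  ring

/-! ### The main theorem -/

/-- The property of having the two vectors of `start K`. -/
def Vec (K : ℕ) (w : Word) : Prop := aBef 0 w = [K, K, 2 * K + 2] ∧ cAft w = [K + 1, K, 0]

/-- For every `N` there is an irreducible transformation of some order `n ≥ N` that is not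
expressible by irreducible transformations of order `< n`. -/
theorem result : ∀ N : ℕ, ∃ n, N ≤ n ∧ ∃ w w' : Word,
    Irred w w' ∧ dist w w' = n ∧ ¬ Expressible n w w' := by
  classical
  intro N
  set K := 3 * N ^ 2 + N + 1 with hK
  -- the two parts of the class of `start K`
  let C : Word → Prop := fun w => PReach (start K) w ∧ Vec K w
  let D : Word → Prop := fun w => PReach (start K) w ∧ ¬ Vec K w
  have hPsymm : ∀ {u v : Word}, PReach u v → PReach v u := fun h => ⟨h.1.symm, h.2.symm⟩
  have hPtrans : ∀ {u v x : Word}, PReach u v → PReach v x → PReach u x :=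
    fun h h' => ⟨h.1.trans h'.1, h.2.trans h'.2⟩
  have hex : ∃ n, ∃ u v, C u ∧ D v ∧ Path n u v := by
    obtain ⟨n, hn⟩ := reach_other K
    refine ⟨n, start K, other K, ⟨⟨Reach.refl _, rfl⟩, aBef_start K, cAft_start K⟩,
      ⟨⟨⟨n, hn⟩, occ_start_other K⟩, ?_⟩, hn⟩
    rintro ⟨h1, -⟩
    rw [aBef_other] at h1
    have h3 : (0 : ℕ) = K := (List.cons.inj h1).1
    omega
  obtain ⟨u, v, hu, hv, hp⟩ := Nat.find_spec hex
  set n := Nat.find hex with hn
  have hmin : ∀ {x y : Word}, C x → D y → n ≤ dist x y := by
    intro x y hx hy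
    have hr : Reach x y := (hPtrans (hPsymm hx.1) hy.1).1
    exact Nat.find_min' hex ⟨x, y, hx, hy, path_dist hr⟩
  have hdist : dist u v = n := le_antisymm (dist_le hp) (hmin hu hv)
  have huv : PReach u v := hPtrans (hPsymm hu.1) hv.1
  have hne : u ≠ v := by
    rintro rfl
    exact hv.2 hu.2
  refine ⟨n, ?_, u, v, ⟨hne, huv, ?_⟩, hdist, ?_⟩
  · -- lower bound
    by_contra hlt
    push Not at hlt
    obtain ⟨-, -, hca, hcc⟩ := path_near (path_dist hu.1.1)
    rw [count_a_start] at hca
    rw [count_c_start] at hcc
    have := arith hu.2.1 hu.2.2 hca.symm hcc.symm (path_near hp) huv.2 hv.2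
    have h1 : n ^ 2 ≤ N ^ 2 := Nat.pow_le_pow_left hlt.le 2
    omega
  · -- irreducible
    rintro ⟨x, hxu, hxv, h1, h2, h3⟩
    have hsx : PReach (start K) x := hPtrans hu.1 h1
    have p1 : 0 < dist u x := dist_pos h1.1 (Ne.symm hxu)
    have p2 : 0 < dist x v := dist_pos h2.1 hxv
    by_cases hV : Vec K x
    · have := hmin ⟨hsx, hV⟩ hv
      omega
    · have := hmin hu ⟨hsx, hV⟩
      omega
  · -- not expressible
    intro hE
    have : ∀ y, Relation.ReflTransGen (fun u v => Irred u v ∧ dist u v < n) u y → C y := by
      intro y hy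
      induction hy with
      | refl => exact hu
      | @tail y z _ hyz ih =>
        have hsz : PReach (start K) z := hPtrans ih.1 hyz.1.2.1
        by_contra hnot
        have hD : D z := ⟨hsz, fun hV => hnot ⟨hsz, hV⟩⟩
        have := hmin ih hD
        omega
    exact hv.2 (this v hE).2

end Pool.Agent.Results.MP_24e294_lc.IndispensableHighOrder
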